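import Pool.Agent.H90.STK.Defs

/-!
# Families of lines with a random time: definitions

A family of resolution `J` is a random line `(u, d)` in space-time, together with a random time
`T / 2 ^ J`, which may depend on the line, and with side information `Z`, all on a finite
probability space. Its position is `u + (T / 2 ^ J) d`.
-/

set_option autoImplicit false

namespace Pool.KA

open Finset Real
open Pool.Agent.H49.Ent Pool.Agent.H32.Dense Pool.STK

/-- A family of resolution `J` in dimension `m`. -/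
structure Fam (m J : ℕ) : Type 1 where
  /-- the sample space -/
  Ω : Type
  /-- the values of the side information -/
  ζ : Type
  /-- the sample space is finite -/
  fin : Fintype Ω
  /-- the law -/
  p : Ω → ℝ
  /-- the position at time zero -/
  u : Ω → Fin m → ℝ
  /-- the direction -/
  d : Ω → Fin m → ℝ
  /-- the time, in units of `2 ^ (-J)` -/
  T : Ω → ℕ
  /-- the side information -/
  Z : Ω → ζ
  isLaw : IsLaw p
  dir : ∀ ω i, |d ω i| ≤ 1
  tim : ∀ ω, T ω < 2 ^ J

attribute [instance] Fam.fin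

variable {m J : ℕ}

/-- The time as a real number. -/
noncomputable def Fam.t (F : Fam m J) (ω : F.Ω) : ℝ := (F.T ω : ℝ) / 2 ^ J

/-- The position at the time of the sample. -/
noncomputable def Fam.x (F : Fam m J) (ω : F.Ω) (i : Fin m) : ℝ := F.u ω i + F.t ω * F.d ω i

/-- The position, rounded at scale `2 ^ (-j)`. -/
noncomputable def Fam.X (F : Fam m J) (j : ℕ) (ω : F.Ω) : Fin m → ℤ := fl j (F.x ω)

/-- The direction, rounded at scale `2 ^ (-j)`. -/
noncomputable def Fam.D (F : Fam m J) (j : ℕ) (ω : F.Ω) : Fin m → ℤ := fl j (F.d ω)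

/-- The line, rounded at scale `2 ^ (-j)`. -/
noncomputable def Fam.L (F : Fam m J) (j : ℕ) (ω : F.Ω) : (Fin m → ℤ) × (Fin m → ℤ) :=
  (fl j (F.u ω), fl j (F.d ω))

/-- The exact line. -/
def Fam.l (F : Fam m J) (ω : F.Ω) : (Fin m → ℝ) × (Fin m → ℝ) := (F.u ω, F.d ω)

/-- The time with the side information. -/
def Fam.W (F : Fam m J) (ω : F.Ω) : ℕ × F.ζ := (F.T ω, F.Z ω)

/-- The violation at scale `2 ^ (-j)`. -/
noncomputable def Fam.V (F : Fam m J) (j : ℕ) : ℝ :=
  CH F.p (F.D J) F.Z - CH F.p (F.X j) F.W - m * (((J : ℝ) - j) * Real.log 2)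

/-- Given the line, the time is uniform up to a deficit `e`. -/
def Fam.Tm (F : Fam m J) (e : ℝ) : Prop :=
  (J : ℝ) * Real.log 2 - e ≤ CH F.p F.T (fun ω => (F.l ω, F.Z ω))

/-- The functional: growth of the violation on `(w, J]` plus surplus at `w`. -/
noncomputable def Fam.G (F : Fam m J) (μ lam : ℝ) (w : ℕ) : ℝ :=
  F.V J - F.V w + ((J : ℝ) - w) * (μ * F.V w / J - lam)

/-! ### Operations -/

/-- Additional side information. -/
def Fam.cnd (F : Fam m J) {κ : Type} (z : F.Ω → κ) : Fam m J where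
  Ω := F.Ω
  ζ := κ × F.ζ
  fin := F.fin
  p := F.p
  u := F.u
  d := F.d
  T := F.T
  Z := fun ω => (z ω, F.Z ω)
  isLaw := F.isLaw
  dir := F.dir
  tim := F.tim

/-- A larger sample space (for kernels). -/
def Fam.ext (F : Fam m J) {Ω' : Type} [Fintype Ω'] (q : Ω' → ℝ) (hq : IsLaw q)
    (pr : Ω' → F.Ω) : Fam m J where
  Ω := Ω'
  ζ := F.ζ
  fin := inferInstance
  p := q
  u := fun w => F.u (pr w)
  d := fun w => F.d (pr w)
  T := fun w => F.T (pr w)
  Z := fun w => F.Z (pr w)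
  isLaw := hq
  dir := fun w => F.dir (pr w)
  tim := fun w => F.tim (pr w)

/-- The first `g` digits of the time. -/
def Fam.T1 (F : Fam m J) (g : ℕ) (ω : F.Ω) : ℕ := F.T ω / 2 ^ (J - g)

/-- The position at the beginning of the window of length `2 ^ (-g)` which contains the time. -/
noncomputable def Fam.x1 (F : Fam m J) (g : ℕ) (ω : F.Ω) (i : Fin m) : ℝ :=
  F.u ω i + (F.T1 g ω : ℝ) / 2 ^ g * F.d ω i

/-- The window of length `2 ^ (-g)` and the ball of radius `2 ^ (-g)` at its beginning. -/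
noncomputable def Fam.c (F : Fam m J) (g : ℕ) (ω : F.Ω) : (ℕ × (Fin m → ℤ)) × F.ζ :=
  ((F.T1 g ω, fl g (F.x1 g ω)), F.Z ω)

/-- Restriction to windows of length `2 ^ (-g)` and balls of radius `2 ^ (-g)`. -/
noncomputable def Fam.win (F : Fam m J) (g : ℕ) : Fam m (J - g) where
  Ω := F.Ω
  ζ := (ℕ × (Fin m → ℤ)) × F.ζ
  fin := F.fin
  p := F.p
  u := fun ω i => Int.fract (2 ^ g * F.x1 g ω i)
  d := F.d
  T := fun ω => F.T ω % 2 ^ (J - g)
  Z := F.c g
  isLaw := F.isLaw
  dir := F.dir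
  tim := fun _ => Nat.mod_lt _ (by positivity)

/-- Zooming into the tubes of width `2 ^ (-q)`. -/
noncomputable def Fam.tub (F : Fam m J) (q : ℕ) (hq : q ≤ J) : Fam m (J - q) where
  Ω := F.Ω
  ζ := ((Fin m → ℤ) × (Fin m → ℤ)) × F.ζ
  fin := F.fin
  p := F.p
  u := fun ω i => Int.fract (2 ^ q * F.u ω i)
  d := fun ω i => Int.fract (2 ^ q * F.d ω i)
  T := fun ω => F.T ω / 2 ^ q
  Z := fun ω => (F.L q ω, F.Z ω)
  isLaw := F.isLaw
  dir := fun ω i => by
    rw [abs_of_nonneg (Int.fract_nonneg _)]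
    exact (Int.fract_lt_one _).le
  tim := fun ω => by
    rw [Nat.div_lt_iff_lt_mul (by positivity), ← pow_add]
    have h := F.tim ω
    have e : J - q + q = J := Nat.sub_add_cancel hq
    rwa [e]

/-- Lower resolution. -/
def Fam.trc (F : Fam m J) (x : ℕ) (hx : x ≤ J) : Fam m x where
  Ω := F.Ω
  ζ := F.ζ
  fin := F.fin
  p := F.p
  u := F.u
  d := F.d
  T := fun ω => F.T ω / 2 ^ (J - x)
  Z := F.Z
  isLaw := F.isLaw
  dir := F.dir
  tim := fun ω => by
    rw [Nat.div_lt_iff_lt_mul (by positivity), ← pow_add]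
    have h := F.tim ω
    have e : x + (J - x) = J := Nat.add_sub_cancel' hx
    rwa [e]

/-- Restriction to an event of positive probability, given by the value `a` of `A`. -/
noncomputable def Fam.res (F : Fam m J) {κ : Type} (A : F.Ω → κ) (a : κ)
    (ha : IsLaw (cond F.p A a)) : Fam m J where
  Ω := F.Ω
  ζ := F.ζ
  fin := F.fin
  p := cond F.p A a
  u := F.u
  d := F.d
  T := F.T
  Z := F.Z
  isLaw := ha
  dir := F.dir
  tim := F.tim

/-! ### The statement `K'(m)` and the extremal values -/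

/-- The entropy inequality for all families whose times are uniform up to small deficits. -/
def KP (m : ℕ) : Prop :=
  ∀ ε > 0, ∃ θ > 0, ∃ J₀ : ℕ, ∀ J ≥ J₀, ∀ F : Fam m J, F.Tm (θ * J) → F.V J ≤ ε * J

/-- Upper bound `r` for the violation. -/
def VB (m : ℕ) (r : ℝ) : Prop :=
  ∀ η > 0, ∃ θ > 0, ∃ J₀ : ℕ, ∀ J ≥ J₀, ∀ F : Fam m J, F.Tm (θ * J) → F.V J ≤ (r + η) * J

/-- Upper bound `s` for the functional. -/
def UB (m : ℕ) (μ lam s : ℝ) : Prop :=
  ∀ η > 0, ∃ θ > 0, ∃ J₀ : ℕ, ∀ J ≥ J₀, ∀ F : Fam m J, F.Tm (θ * J) → ∀ w ≤ J,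
    F.G μ lam w ≤ (s + η) * J

/-- The value `s` of the functional is attained. -/
def LB (m : ℕ) (μ lam s : ℝ) : Prop :=
  ∀ η > 0, ∀ θ > 0, ∀ J₀ : ℕ, ∃ J ≥ J₀, ∃ F : Fam m J, F.Tm (θ * J) ∧ ∃ w ≤ J,
    (s - η) * J ≤ F.G μ lam w

/-- The parameter `μ`. -/
noncomputable def mu (m : ℕ) (r : ℝ) : ℝ := 2 * (m * Real.log 2) / r

end Pool.KA
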