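import Pool.Agent.H9.KA.Defs

/-!
# Families of lines with a random time: statements of the modules
-/

set_option autoImplicit false

namespace Pool.KA

open Finset Real
open Pool.Agent.H49.Ent Pool.Agent.H32.Dense Pool.STK

/-- Windows: deficits of the time, and the violation. -/
def WINStmt : Prop :=
  ∀ (m J : ℕ) (F : Fam m J) (g : ℕ), g ≤ J →
    (∀ e, F.Tm e → (F.win g).Tm e) ∧
    ∀ j, j + g ≤ J → (F.win g).V j = CH F.p (F.D (J - g)) (F.c g) -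
      CH F.p (F.X (j + g)) (fun ω => (F.T ω, F.c g ω)) -
      m * (((J : ℝ) - (j + g)) * Real.log 2)

/-- The position at the beginning of the window and the position at the time of the sample
determine each other up to `C`. For functions of the line, the time in the window does not
matter. -/
def WI2Stmt : Prop :=
  ∀ m : ℕ, ∃ C : ℝ, 0 ≤ C ∧ ∀ (J : ℕ) (F : Fam m J) (g : ℕ), g ≤ J → ∀ (S : Type) (Y : F.Ω → S),
    |CH F.p Y (fun ω => (F.T ω, F.c g ω)) - CH F.p Y (fun ω => (F.X g ω, F.W ω))| ≤ C ∧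
    ∀ e, F.Tm e → Det F.p F.l Y →
      |CH F.p Y (F.c g) - CH F.p Y (fun ω => (F.X g ω, F.W ω))| ≤ e + C

/-- Tubes. -/
def TUBStmt : Prop :=
  ∀ m : ℕ, ∃ C : ℝ, 0 ≤ C ∧ ∀ (J : ℕ) (F : Fam m J) (q : ℕ) (hq : q ≤ J) (e : ℝ), F.Tm e →
    (F.tub q hq).Tm e ∧
    ∀ j, j + q ≤ J → |(F.tub q hq).V j - (CH F.p (F.D J) (fun ω => (F.L q ω, F.Z ω)) -
      CH F.p (F.X (j + q)) (fun ω => (F.L q ω, F.W ω)) -
      m * (((J : ℝ) - (j + q)) * Real.log 2))| ≤ e + C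

/-- Lower resolution. -/
def TRCStmt : Prop :=
  ∀ m : ℕ, ∃ C : ℝ, 0 ≤ C ∧ ∀ (J : ℕ) (F : Fam m J) (x : ℕ) (hx : x ≤ J) (e : ℝ), F.Tm e →
    (F.trc x hx).Tm e ∧
    ∀ j ≤ x, |(F.trc x hx).V j - (CH F.p (F.D x) F.Z - CH F.p (F.X j) F.W -
        m * (((x : ℝ) - j) * Real.log 2))| ≤ e + C ∧
      F.V j - (e + C) ≤ (F.trc x hx).V j

/-- Additional side information. -/
def CNDStmt : Prop :=
  ∀ (m J : ℕ) (F : Fam m J) (κ : Type) (z : F.Ω → κ) (e e' : ℝ), F.Tm e →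
    CH F.p z (fun ω => (F.l ω, F.Z ω)) ≤ CH F.p z (fun ω => (F.T ω, (F.l ω, F.Z ω))) + e' →
    (F.cnd z).Tm (e + e')

/-- Larger sample spaces. -/
def EXTStmt : Prop :=
  ∀ (m J : ℕ) (F : Fam m J) (Ω' : Type) [Fintype Ω'] (q : Ω' → ℝ) (hq : IsLaw q)
    (pr : Ω' → F.Ω), Marg q F.p pr →
    (∀ j, (F.ext q hq pr).V j = F.V j) ∧ ∀ e, (F.ext q hq pr).Tm e ↔ F.Tm e

/-- The violation is almost nondecreasing and Lipschitz. -/
def GROStmt : Prop :=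
  ∀ m : ℕ, ∃ C : ℝ, 0 ≤ C ∧ ∀ (J : ℕ) (F : Fam m J),
    (∀ i j : ℕ, i ≤ j → CH F.p (F.X i) F.W ≤ CH F.p (F.X j) F.W ∧
      CH F.p (F.X j) F.W ≤ CH F.p (F.X i) F.W + m * (((j : ℝ) - i) * Real.log 2) + C) ∧
    (∀ i j : ℕ, i ≤ j → F.V i ≤ F.V j + C ∧
      F.V j ≤ F.V i + m * (((j : ℝ) - i) * Real.log 2)) ∧
    (∀ j, F.V j ≤ m * ((j : ℝ) * Real.log 2) + C)

/-- **Existence of near-maximisers.** If `K'(m)` fails, then there are `r > 0` (the largest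
violation), `Ψ` and, for every `τ > 0`, a positive value `σ` of the functional with the parameter
`Ψ - τ`, while the value with the parameter `Ψ` is `0`. -/
def EXIStmt : Prop :=
  ∀ m : ℕ, ¬ KP m → ∃ r Ψ : ℝ, 0 < r ∧ VB m r ∧ (1 + mu m r) * r ≤ Ψ ∧ UB m (mu m r) Ψ 0 ∧
    ∀ τ : ℝ, 0 < τ → ∃ σ : ℝ, 0 < σ ∧ UB m (mu m r) (Ψ - τ) σ ∧ LB m (mu m r) (Ψ - τ) σ

/-- **The master inequality**, for two families of resolutions `J` and `J - g`. -/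
def MASStmt : Prop :=
  ∀ (m J g w : ℕ) (μ lam σ η : ℝ) (F : Fam m J) (F' : Fam m (J - g)), g ≤ w → w ≤ J → g < J →
    0 ≤ η →
    (σ - η) * J ≤ F.G μ lam w → F'.G μ lam (w - g) ≤ (σ + η) * ((J : ℝ) - g) →
    (F.V w - F'.V (w - g)) - (F.V J - F'.V (J - g)) + g * σ ≤
      μ * ((J : ℝ) - w) / ((J : ℝ) - g) * ((F.V w - F'.V (w - g)) - g * F.V w / J) + 2 * η * J

/-- Size of the zone, and of the surplus at its beginning. -/
def ZONStmt : Prop :=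
  ∀ m : ℕ, ∃ C : ℝ, 0 ≤ C ∧ ∀ (J w : ℕ) (μ lam τ σ η : ℝ) (F : Fam m J), 1 ≤ J → w ≤ J → 0 ≤ μ →
    (σ - η) * J ≤ F.G μ lam w →
    (F.G μ (lam + τ) w ≤ η * J → (σ - 2 * η) * J ≤ τ * ((J : ℝ) - w)) ∧
    (σ - η) * J ≤ ((J : ℝ) - w) * (m * Real.log 2 + μ * F.V w / J - lam) + C

/-- Slopes: the rate of the positions on the zone, counted from its beginning. -/
def SLPStmt : Prop :=
  ∀ m : ℕ, ∃ C : ℝ, 0 ≤ C ∧ ∀ (J w x : ℕ) (hx : x ≤ J) (μ lam τ η e : ℝ) (F : Fam m J),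
    1 ≤ J → w ≤ x → 1 ≤ x → 0 ≤ μ → 0 ≤ F.V w → F.Tm e →
    (F.G μ lam x ≤ F.G μ lam w + η * J →
      (lam - μ * F.V w / J) * ((x : ℝ) - w) - η * J - C * (1 + μ) ≤ F.V x - F.V w) ∧
    ((F.trc x hx).G μ (lam + τ) w ≤ η * J →
      F.V x - F.V w ≤ (lam + τ - μ * F.V w / J) * ((x : ℝ) - w) + η * J + (2 + μ) * (e + C))

/-- Hiding: additional side information `z` with price `π` at `w` says little on the positions
in the zone. -/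
def HIDStmt : Prop :=
  ∀ (m J w : ℕ) (μ lam σ η : ℝ) (F : Fam m J) (κ : Type) (z : F.Ω → κ), 1 ≤ J → w ≤ J →
    (σ - η) * J ≤ F.G μ lam w → (F.cnd z).G μ lam w ≤ (σ + η) * J →
    CH F.p z (fun ω => (F.X w ω, F.W ω)) - CH F.p z (fun ω => (F.X J ω, F.W ω)) ≤
      μ * ((J : ℝ) - w) / J * ((CH F.p z F.Z - CH F.p z (fun ω => (F.D J ω, F.Z ω))) -
        (CH F.p z F.W - CH F.p z (fun ω => (F.X w ω, F.W ω)))) + 2 * η * J

/-- Hiding in a shorter zone `(w, x]`. -/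
def HI2Stmt : Prop :=
  ∀ m : ℕ, ∃ C : ℝ, 0 ≤ C ∧ ∀ (J w x : ℕ) (hx : x ≤ J) (μ lam τ η e : ℝ) (F : Fam m J)
    (κ : Type) (z : F.Ω → κ), 1 ≤ J → w ≤ x → 1 ≤ x → 0 ≤ μ → 0 ≤ F.V w → F.Tm e →
    (F.cnd z).Tm e →
    F.G μ lam x ≤ F.G μ lam w + η * J →
    ((F.cnd z).trc x hx).G μ (lam + τ) w ≤ η * J →
    CH F.p z (fun ω => (F.X w ω, F.W ω)) - CH F.p z (fun ω => (F.X x ω, F.W ω)) ≤
      (τ + μ * ((CH F.p z F.Z - CH F.p z (fun ω => (F.D x ω, F.Z ω))) -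
        (CH F.p z F.W - CH F.p z (fun ω => (F.X w ω, F.W ω)))) / x) * ((x : ℝ) - w) +
      2 * η * J + (2 + μ) * (e + C)

/-- Fans: the entropy of the first `q` digits of the line at a ball of radius `2 ^ (-w)`. -/
def FANStmt : Prop :=
  ∀ m : ℕ, ∃ C : ℝ, 0 ≤ C ∧ ∀ (J w q : ℕ) (hq : q ≤ J) (μ lam σ η e : ℝ) (F : Fam m J),
    1 ≤ J → q ≤ w → w < J → 0 ≤ σ → 0 ≤ η → 0 < μ → F.Tm e →
    (σ - η) * J ≤ F.G μ lam w → (F.tub q hq).G μ lam (w - q) ≤ (σ + η) * ((J : ℝ) - q) →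
    q * F.V w / J ≤ CH F.p (F.D q) (fun ω => (F.X w ω, F.W ω)) + 2 * e + C +
      (2 * η * J + 2 * (e + C)) * J / (μ * ((J : ℝ) - w))

/-- Windows cost. -/
def WCOStmt : Prop :=
  ∀ m : ℕ, ∃ C : ℝ, 0 ≤ C ∧ ∀ (J w g : ℕ) (μ lam σ η e : ℝ) (F : Fam m J), 1 ≤ J → g ≤ w →
    w < J → 0 ≤ σ → 0 ≤ η → 0 < μ → F.Tm e →
    (σ - η) * J ≤ F.G μ lam w → (F.win g).G μ lam (w - g) ≤ (σ + η) * ((J : ℝ) - g) →
    g * F.V w / J ≤ (CH F.p (F.D J) F.Z -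
        CH F.p (fun ω => (F.X g ω, F.D (J - g) ω)) F.W) + e + C +
      (2 * η * J + 2 * (e + C)) * J / (μ * ((J : ℝ) - w))

open Classical in
/-- Types: the violation is affine in the law, up to the logarithm of the number of types. -/
def TYAStmt : Prop :=
  ∀ (m J : ℕ) (F : Fam m J) (κ : Type) [Fintype κ] (A : F.Ω → κ) (e : ℝ), F.Tm e →
    (∀ a, 0 < law F.p A a → IsLaw (cond F.p A a)) ∧
    ∀ (h : ∀ a, 0 < law F.p A a → IsLaw (cond F.p A a)),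
      (∀ j, |F.V j - ∑ a, (if ha : 0 < law F.p A a then law F.p A a * (F.res A a (h a ha)).V j
        else 0)| ≤ 2 * Real.log (Fintype.card κ)) ∧
      ∀ a (ha : 0 < law F.p A a),
        (F.res A a (h a ha)).Tm ((e + Real.log (Fintype.card κ)) / law F.p A a)

end Pool.KA
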